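import Pool.Agent.LibBV24.Scale

/-! [BV24] Column functions from a tower in the ultrafilter. -/

set_option autoImplicit false

namespace Pool.Agent.LibBV24

open Cardinal Set
open Pool.Agent.LibGP76

/-- The region. -/
def Rg (Y : ℕ → Set ℕ) (Z : Set ℕ) : Set ℕ := {x | x ∈ Y 0 ∧ x ∉ Z ∧ ∃ j, x ∉ Y (j + 1)}

/-- The column. -/
noncomputable def co (Y : ℕ → Set ℕ) (x : ℕ) : ℕ := sInf {j | x ∉ Y (j + 1)}

theorem mem_of_le_co {Y : ℕ → Set ℕ} {Z : Set ℕ} {x : ℕ} (hx : x ∈ Rg Y Z) {j : ℕ}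
    (hj : j ≤ co Y x) : x ∈ Y j := by
  cases j with
  | zero => exact hx.1
  | succ j =>
    by_contra hcon
    have : co Y x ≤ j := Nat.sInf_le hcon
    omega

theorem fin_diff_trans {A B C : Set ℕ} (h1 : (A \ B).Finite) (h2 : (B \ C).Finite) :
    (A \ C).Finite := by
  refine (h1.union h2).subset ?_
  rintro x ⟨hx, hxC⟩
  by_cases hxB : x ∈ B
  · exact Or.inr ⟨hxB, hxC⟩
  · exact Or.inl ⟨hx, hxB⟩

theorem col_pos (Y : ℕ → Set ℕ) (Z X : Set ℕ) (hY : ∀ i j, i ≤ j → (Y j \ Y i).Finite)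
    (hZ : ∀ j, (Z \ Y j).Finite) (hX : ∀ j, ∃ j', ((X ∩ Y j) \ Y j').Infinite) :
    {n | {x | x ∈ X ∩ Rg Y Z ∧ co Y x = n}.Infinite}.Infinite := by
  intro hfin
  obtain ⟨N, hN⟩ := hfin.bddAbove
  have hN' : ∀ n, N < n → {x | x ∈ X ∩ Rg Y Z ∧ co Y x = n}.Finite := by
    intro n hn
    by_contra hcon
    exact absurd (hN hcon) (not_le.2 hn)
  obtain ⟨j', hj'⟩ := hX (N + 1)
  apply hj'
  have h1 : ((X ∩ Y (N + 1)) \ Y j') ⊆ (Z \ Y j') ∪ (⋃ i ∈ Set.Iic (N + 1), (Y (N + 1) \ Y i)) ∪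
      ⋃ n ∈ {n | N < n ∧ n ≤ j'}, {x | x ∈ X ∩ Rg Y Z ∧ co Y x = n} := by
    rintro x ⟨⟨hxX, hxY⟩, hxj⟩
    by_cases hxZ : x ∈ Z
    · exact Or.inl (Or.inl ⟨hxZ, hxj⟩)
    by_cases hxi : ∃ i, i ≤ N + 1 ∧ x ∉ Y i
    · obtain ⟨i, hi, hxi⟩ := hxi
      refine Or.inl (Or.inr ?_)
      simp only [mem_iUnion]
      exact ⟨i, hi, hxY, hxi⟩
    push Not at hxi
    have hj0 : N + 1 < j' := by
      by_contra hcon
      exact hxj (hxi j' (not_lt.1 hcon))
    obtain ⟨j, rfl⟩ : ∃ j, j' = j + 1 := ⟨j' - 1, by omega⟩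
    refine Or.inr ?_
    simp only [mem_iUnion]
    have hrg : x ∈ Rg Y Z := ⟨hxi 0 (Nat.zero_le _), hxZ, j, hxj⟩
    refine ⟨co Y x, ⟨?_, ?_⟩, ⟨hxX, hrg⟩, rfl⟩
    · by_contra hcon
      have h2 : co Y x ∈ {j | x ∉ Y (j + 1)} := Nat.sInf_mem ⟨j, hxj⟩
      exact h2 (hxi _ (by omega))
    · exact (Nat.sInf_le (show j ∈ {j | x ∉ Y (j + 1)} from hxj)).trans (Nat.le_succ _)
  refine Set.Finite.subset (((hZ j').union ?_).union ?_) h1
  · exact (Set.finite_Iic (N + 1)).biUnion fun i hi => hY i (N + 1) hi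
  · refine Set.Finite.biUnion ((Set.finite_Iic j').subset fun n hn => hn.2) ?_
    exact fun n hn => hN' n hn.1

/-- Points of a region with large columns are almost in all `Y j`. -/
theorem fin_of_co {Y : ℕ → Set ℕ} {Z B : Set ℕ} (hB : B ⊆ Rg Y Z)
    (hc : ∀ N, {x | x ∈ B ∧ co Y x ≤ N}.Finite) (j : ℕ) : (B \ Y j).Finite := by
  refine (hc j).subset ?_
  rintro x ⟨hxB, hxY⟩
  refine ⟨hxB, ?_⟩
  by_contra hcon
  exact hxY (mem_of_le_co (hB hxB) (by omega))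

theorem base (p : Ultrafilter ℕ) (hp : ∀ X ∈ p, X.Infinite) :
    ∃ (T : Type) (W : T → Set ℕ) (c : T → ℕ → ℕ),
      (∀ t t', t ≠ t' → ∀ B : Set ℕ, B ⊆ W t → B ⊆ W t' → (∀ N, {x | x ∈ B ∧ c t x ≤ N}.Finite) →
        (∀ N, {x | x ∈ B ∧ c t' x ≤ N}.Finite) → B.Finite) ∧
      ∀ X ∈ p, ∃ t, {n | {x | x ∈ X ∩ W t ∧ c t x = n}.Infinite}.Infinite := by
  classical
  let P := {X : Set ℕ // X ∈ p}
  let r : P → P → Prop := fun X Y => (Y.1 \ X.1).Finite
  obtain ⟨K, _, _, x, h1, h2, h3, h4, h5⟩ := exists_tower r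
    (fun X => by
      show (X.1 \ X.1).Finite
      rw [sdiff_self]
      exact finite_empty)
    (fun X Y Z hXY hYZ => fin_diff_trans hYZ hXY)
    (fun X Y => by
      refine ⟨⟨X.1 ∩ Y.1, Filter.inter_mem X.2 Y.2⟩, ?_, ?_⟩
      · show ((X.1 ∩ Y.1) \ X.1).Finite
        rw [sdiff_eq_empty.2 inter_subset_left]
        exact finite_empty
      · show ((X.1 ∩ Y.1) \ Y.1).Finite
        rw [sdiff_eq_empty.2 inter_subset_right]
        exact finite_empty)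
    (fun Y => by
      have hYi := hp _ Y.2
      have hYc : #Y.1 = #ℕ := by
        have := hYi.to_subtype
        rw [mk_nat]
        exact le_antisymm (mk_le_aleph0) (infinite_iff.1 this)
      obtain ⟨t, ht1, ht2, ht3⟩ := LibGP.exists_halves (A := ℕ) (by rw [mk_nat]) Y.1 hYc
      have ht4 : ∀ b, (t b).Infinite := by
        intro b
        rw [← Set.infinite_coe_iff, infinite_iff, ht2, mk_nat]
      by_cases h0 : t false ∈ p
      · refine ⟨⟨t false, h0⟩, ?_⟩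
        intro hfin
        apply ht4 true
        refine hfin.subset ?_
        intro x hx
        exact ⟨ht1 _ hx, fun hx' => Set.disjoint_left.1 ht3 hx' hx⟩
      · refine ⟨⟨(t false)ᶜ, Ultrafilter.compl_mem_iff_notMem.2 h0⟩, ?_⟩
        intro hfin
        apply ht4 false
        refine hfin.subset ?_
        intro x hx
        exact ⟨ht1 _ hx, fun hx' => hx' hx⟩)
    ⟨⟨univ, Filter.univ_mem⟩⟩
  have h1' : ∀ a b, a ≤ b → ((x b).1 \ (x a).1).Finite := h1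
  have h2' : ∀ X ∈ p, ∃ a, (X \ (x a).1).Infinite := fun X hX => h2 ⟨X, hX⟩
  by_cases hK : #K = ℵ₀
  · rw [← mk_nat] at hK
    obtain ⟨e⟩ := Cardinal.eq.1 hK
    let m : ℕ → K := fun n => (Finset.range (n + 1)).sup' ⟨0, by simp⟩ e.symm
    have hm : Monotone m := by
      intro i j hij
      refine Finset.sup'_mono e.symm ?_ _
      intro x hx
      rw [Finset.mem_range] at hx ⊢
      omega
    have hm2 : ∀ a : K, a ≤ m (e a) := by
      intro a
      have := Finset.le_sup' (s := Finset.range (e a + 1)) e.symm (b := e a) (by simp)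
      rwa [Equiv.symm_apply_apply] at this
    refine ⟨Unit, fun _ => Rg (fun j => (x (m j)).1) ∅, fun _ => co (fun j => (x (m j)).1), ?_, ?_⟩
    · intro t t' hne
      exact absurd (Subsingleton.elim _ _) hne
    · intro X hX
      refine ⟨(), col_pos _ _ _ (fun i j hij => h1' _ _ (hm hij)) (fun j => ?_) fun j => ?_⟩
      · rw [empty_sdiff]
        exact finite_empty
      · obtain ⟨a, ha⟩ := h2' (X ∩ (x (m j)).1) (Filter.inter_mem hX (x (m j)).2)
        refine ⟨e a, fun hfin => ha ?_⟩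
        exact fin_diff_trans hfin (h1' _ _ (hm2 a))
  · have hR : RegK K := ⟨lt_of_le_of_ne h3 (Ne.symm hK), h4, h5⟩
    have hex : ∀ δ : {δ : K // Om δ}, ∃ e : ℕ → K, Monotone e ∧ (∀ n, e n < δ.1) ∧
      ∀ y < δ.1, ∃ n, y < e n := fun δ => δ.2
    choose ld hl1 hl2 hl3 using hex
    refine ⟨{δ : K // Om δ}, fun δ => Rg (fun j => (x (ld δ j)).1) (x δ.1).1,
      fun δ => co (fun j => (x (ld δ j)).1), ?_, ?_⟩
    · have key : ∀ t t' : {δ : K // Om δ}, t.1 < t'.1 → ∀ B : Set ℕ,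
          B ⊆ Rg (fun j => (x (ld t j)).1) (x t.1).1 →
          B ⊆ Rg (fun j => (x (ld t' j)).1) (x t'.1).1 →
          (∀ N, {y | y ∈ B ∧ co (fun j => (x (ld t' j)).1) y ≤ N}.Finite) → B.Finite := by
        intro t t' htt B hB hB' hc
        obtain ⟨j, hj⟩ := hl3 t' t.1 htt
        have h6 := fin_diff_trans (fin_of_co hB' hc j) (h1' _ _ hj.le)
        have h7 : B \ (x t.1).1 = B := by
          rw [sdiff_eq_left, Set.disjoint_left]
          exact fun y hy => (hB hy).2.1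
        rwa [h7] at h6
      intro t t' hne B hB hB' hc hc'
      have hne' : t.1 ≠ t'.1 := fun h => hne (Subtype.ext h)
      rcases lt_or_gt_of_ne hne' with h | h
      · exact key t t' h B hB hB' hc'
      · exact key t' t h B hB' hB hc
    · intro X hX
      choose E hE using fun b : K => h2' (X ∩ (x b).1) (Filter.inter_mem hX (x b).2)
      obtain ⟨η⟩ := nonempty_of_regK hR
      obtain ⟨δ, -, hδ, hδ'⟩ := exists_cl_om hR E η
      refine ⟨⟨δ, (om_iff δ).2 hδ'⟩, col_pos _ _ _ (fun i j hij => h1' _ _ (hl1 _ hij))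
        (fun j => h1' _ _ (hl2 ⟨δ, (om_iff δ).2 hδ'⟩ j).le) fun j => ?_⟩
      obtain ⟨j', hj'⟩ := hl3 ⟨δ, (om_iff δ).2 hδ'⟩ (E (ld ⟨δ, (om_iff δ).2 hδ'⟩ j))
        (hδ _ (hl2 _ j))
      refine ⟨j', fun hfin => hE (ld ⟨δ, (om_iff δ).2 hδ'⟩ j) ?_⟩
      exact fin_diff_trans hfin (h1' _ _ hj'.le)

end Pool.Agent.LibBV24
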