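import Pool.Agent.LibBV24.Scale

/-! [BV24] The next column function. -/

set_option autoImplicit false

namespace Pool.Agent.LibBV24

open Cardinal Set
open Pool.Agent.LibGP76

section

variable {L : Type} [LinearOrder L] (f : L → ℕ → ℕ) (ld : L → ℕ → L)

/-- The next function. -/
noncomputable def nxt (δ : L) (u v : ℕ → ℕ) (x : ℕ) : ℕ :=
  if u x < f δ (v x) then sInf {t | u x < f (ld δ (t + 1)) (v x)} else 0

omit [LinearOrder L] in
theorem nxt_spec {δ : L} {u v : ℕ → ℕ} {x : ℕ} (h : 1 ≤ nxt f ld δ u v x) :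
    u x < f δ (v x) ∧ ∀ s, 1 ≤ s → s ≤ nxt f ld δ u v x → f (ld δ s) (v x) ≤ u x := by
  unfold nxt at h ⊢
  by_cases hu : u x < f δ (v x)
  · rw [if_pos hu] at h ⊢
    refine ⟨hu, fun s hs1 hs2 => ?_⟩
    by_contra hcon
    rw [not_le] at hcon
    have h1 : s - 1 ∈ {t | u x < f (ld δ (t + 1)) (v x)} := by
      show u x < f (ld δ (s - 1 + 1)) (v x)
      rwa [Nat.sub_add_cancel hs1]
    have h2 := Nat.sInf_le h1
    omega
  · rw [if_neg hu] at h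
    omega

/-- Positive sets. -/
def PosP (X : Set ℕ) (u v : ℕ → ℕ) : Prop :=
  {n | {m | ∃ x ∈ X, u x = m ∧ v x = n}.Infinite}.Infinite

theorem step [WellFoundedLT L] (hL : RegK L)
    (hf : ∀ a b, a ≤ b → ∃ N, ∀ n, N ≤ n → f a n ≤ f b n)
    (hu : ∀ S : Set ℕ, S.Infinite → ∀ g : ℕ → ℕ, ∃ b, {n | n ∈ S ∧ g n < f b n}.Infinite)
    (hl : ∀ δ, Om δ → Monotone (ld δ) ∧ (∀ n, ld δ n < δ) ∧ ∀ y < δ, ∃ n, y < ld δ n)
    (X : Set ℕ) (u v : ℕ → ℕ) (hX : PosP X u v) (S : Set L) (hS : Stat S) (hSo : ∀ δ ∈ S, Om δ) :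
    ∃ δ ∈ S, PosP X v (nxt f ld δ u v) := by
  classical
  let A : ℕ → Set ℕ := fun n => {m | ∃ x ∈ X, u x = m ∧ v x = n}
  let N₀ : Set ℕ := {n | (A n).Infinite}
  let g : L → ℕ → ℕ := fun b n => sInf {m | m ∈ A n ∧ f b n ≤ m}
  have hg : ∀ b, ∀ n ∈ N₀, g b n ∈ A n ∧ f b n ≤ g b n := by
    intro b n hn
    have hne : {m | m ∈ A n ∧ f b n ≤ m}.Nonempty := by
      obtain ⟨m, hm, hm2⟩ := Set.Infinite.exists_gt (s := A n) hn (f b n)
      exact ⟨m, hm, hm2.le⟩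
    exact Nat.sInf_mem hne
  choose E hE using fun b : L => hu N₀ hX (g b)
  obtain ⟨η⟩ := nonempty_of_regK hL
  obtain ⟨δ, hδS, -, hδE⟩ := hS E η
  obtain ⟨hl1, hl2, hl3⟩ := hl δ (hSo δ hδS)
  refine ⟨δ, hδS, ?_⟩
  intro hfin
  obtain ⟨J, hJ⟩ := hfin.bddAbove
  have hJ' : ∀ k, J < k → {n | ∃ x ∈ X, v x = n ∧ nxt f ld δ u v x = k}.Finite := by
    intro k hk
    by_contra hcon
    exact absurd (hJ hcon) (not_le.2 hk)
  obtain ⟨j', hj'⟩ := hl3 (E (ld δ (J + 1))) (hδE _ (hl2 _))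
  obtain ⟨N1, hN1⟩ := hf _ _ hj'.le
  obtain ⟨N2, hN2⟩ := hf _ _ (hl2 j').le
  obtain ⟨N3, hN3⟩ := hf _ _ (hl1 (Nat.le_succ j'))
  choose N4 hN4 using fun t : ℕ => hf (ld δ (min t (J + 1))) (ld δ (J + 1)) (hl1 (min_le_right _ _))
  have hM := hE (ld δ (J + 1))
  set Nm := max (max N1 N2) (max N3 (∑ t ∈ Finset.range (J + 2), N4 t)) with hNm
  apply hM
  have h1 : {n | n ∈ N₀ ∧ g (ld δ (J + 1)) n < f (E (ld δ (J + 1))) n} ⊆
      Set.Iio Nm ∪ ⋃ k ∈ {k | J < k ∧ k ≤ j'}, {n | ∃ x ∈ X, v x = n ∧ nxt f ld δ u v x = k} := by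
    rintro n ⟨hn, hng⟩
    by_cases hnN : n < Nm
    · exact Or.inl hnN
    rw [not_lt] at hnN
    right
    obtain ⟨⟨x, hxX, hxu, hxv⟩, hge⟩ := hg (ld δ (J + 1)) n hn
    have e1 : f (E (ld δ (J + 1))) n ≤ f (ld δ j') n := hN1 n (by omega)
    have e2 : f (ld δ j') n ≤ f δ n := hN2 n (by omega)
    have e3 : f (ld δ j') n ≤ f (ld δ (j' + 1)) n := hN3 n (by omega)
    have e4 : ∀ t, t ≤ J + 1 → f (ld δ t) n ≤ f (ld δ (J + 1)) n := by
      intro t ht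
      have h5 : N4 t ≤ ∑ t ∈ Finset.range (J + 2), N4 t :=
        Finset.single_le_sum (f := N4) (fun i _ => Nat.zero_le _) (Finset.mem_range.2 (by omega))
      have h6 := hN4 t n (by omega)
      rwa [min_eq_left ht] at h6
    have hux : u x < f δ (v x) := by
      rw [hxu, hxv]
      exact (hng.trans_le e1).trans_le e2
    have hval : nxt f ld δ u v x = sInf {t | u x < f (ld δ (t + 1)) (v x)} := if_pos hux
    have hmem : j' ∈ {t | u x < f (ld δ (t + 1)) (v x)} := by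
      show u x < f (ld δ (j' + 1)) (v x)
      rw [hxu, hxv]
      exact (hng.trans_le e1).trans_le e3
    simp only [mem_iUnion]
    refine ⟨nxt f ld δ u v x, ⟨?_, ?_⟩, x, hxX, hxv, rfl⟩
    · rw [hval]
      by_contra hcon
      have h7 : u x < f (ld δ (sInf {t | u x < f (ld δ (t + 1)) (v x)} + 1)) (v x) :=
        Nat.sInf_mem ⟨_, hmem⟩
      have h8 := e4 (sInf {t | u x < f (ld δ (t + 1)) (v x)} + 1) (by omega)
      rw [← hxv] at h8
      have h9 := h7.trans_le h8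
      rw [hxu, hxv] at h9
      omega
    · rw [hval]
      exact Nat.sInf_le hmem
  refine Set.Finite.subset ((Set.finite_Iio Nm).union ?_) h1
  refine Set.Finite.biUnion ((Set.finite_Iic j').subset fun n hn => hn.2) ?_
  exact fun n hn => hJ' n hn.1

/-- The sequence of column functions. -/
noncomputable def st (δ : ℕ → L) (c : ℕ → ℕ) : ℕ → (ℕ → ℕ) × (ℕ → ℕ)
  | 0 => (id, c)
  | i + 1 => ((st δ c i).2, nxt f ld (δ i) (st δ c i).1 (st δ c i).2)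

omit [LinearOrder L] in
theorem st_congr {δ δ' : ℕ → L} (c : ℕ → ℕ) (i : ℕ) (h : ∀ j < i, δ j = δ' j) :
    st f ld δ c i = st f ld δ' c i := by
  induction i with
  | zero => rfl
  | succ i ih =>
    have h1 := ih fun j hj => h j (by omega)
    show ((st f ld δ c i).2, nxt f ld (δ i) (st f ld δ c i).1 (st f ld δ c i).2) =
      ((st f ld δ' c i).2, nxt f ld (δ' i) (st f ld δ' c i).1 (st f ld δ' c i).2)
    rw [h1, h i (by omega)]

theorem levels [WellFoundedLT L] (hL : RegK L)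
    (hf : ∀ a b, a ≤ b → ∃ N, ∀ n, N ≤ n → f a n ≤ f b n)
    (hu : ∀ S : Set ℕ, S.Infinite → ∀ g : ℕ → ℕ, ∃ b, {n | n ∈ S ∧ g n < f b n}.Infinite)
    (hl : ∀ δ, Om δ → Monotone (ld δ) ∧ (∀ n, ld δ n < δ) ∧ ∀ y < δ, ∃ n, y < ld δ n)
    (lb : L → Bool) (hlb : ∀ a, Stat {x | lb x = a ∧ Om x})
    (X : Set ℕ) (c : ℕ → ℕ) (hX : PosP X id c) (a : ℕ → Bool) :
    ∃ δ : ℕ → L, (∀ i, lb (δ i) = a i ∧ Om (δ i)) ∧
      ∀ i, PosP X (st f ld δ c i).1 (st f ld δ c i).2 := by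
  classical
  have hs : ∀ (i : ℕ) (s : {s : (ℕ → ℕ) × (ℕ → ℕ) // PosP X s.1 s.2}),
      ∃ δ : L, (lb δ = a i ∧ Om δ) ∧ PosP X s.1.2 (nxt f ld δ s.1.1 s.1.2) := by
    intro i s
    obtain ⟨δ, h1, h2⟩ := step f ld hL hf hu hl X s.1.1 s.1.2 s.2 _ (hlb (a i)) fun δ hδ => hδ.2
    exact ⟨δ, h1, h2⟩
  choose D hD1 hD2 using hs
  let s : ℕ → {s : (ℕ → ℕ) × (ℕ → ℕ) // PosP X s.1 s.2} := fun i =>
    Nat.rec ⟨(id, c), hX⟩ (fun i s => ⟨(s.1.2, nxt f ld (D i s) s.1.1 s.1.2), hD2 i s⟩) i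
  have hs1 : ∀ i, (s (i + 1)).1 = ((s i).1.2, nxt f ld (D i (s i)) (s i).1.1 (s i).1.2) :=
    fun i => rfl
  have key : ∀ i, st f ld (fun i => D i (s i)) c i = (s i).1 := by
    intro i
    induction i with
    | zero => rfl
    | succ i ih =>
      rw [hs1, ← ih]
      rfl
  refine ⟨fun i => D i (s i), fun i => hD1 i (s i), fun i => ?_⟩
  rw [key]
  exact (s i).2

/-- The conditions at one level. -/
def Lv (B : Set ℕ) (δ : L) (u v : ℕ → ℕ) : Prop :=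
  (∀ N, {x | x ∈ B ∧ v x ≤ N}.Finite) ∧ {x | x ∈ B ∧ f δ (v x) ≤ u x}.Finite ∧
    ∀ b < δ, {x | x ∈ B ∧ u x < f b (v x)}.Finite

theorem lv_orth {B B' : Set ℕ} {δ δ' : L} {u v : ℕ → ℕ} (hne : δ ≠ δ') (h : Lv f B δ u v)
    (h' : Lv f B' δ' u v) : (B ∩ B').Finite := by
  rcases lt_or_gt_of_ne hne with hlt | hlt
  · refine (h.2.1.union (h'.2.2 δ hlt)).subset ?_
    rintro x ⟨hx, hx'⟩
    by_cases hxx : u x < f δ (v x)
    · exact Or.inr ⟨hx', hxx⟩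
    · exact Or.inl ⟨hx, not_lt.1 hxx⟩
  · refine (h'.2.1.union (h.2.2 δ' hlt)).subset ?_
    rintro x ⟨hx, hx'⟩
    by_cases hxx : u x < f δ' (v x)
    · exact Or.inr ⟨hx, hxx⟩
    · exact Or.inl ⟨hx', not_lt.1 hxx⟩

theorem build (hn : ∀ b n, n ≤ f b n)
    (hf : ∀ a b, a ≤ b → ∃ N, ∀ n, N ≤ n → f a n ≤ f b n)
    (hl : ∀ δ, Om δ → Monotone (ld δ) ∧ (∀ n, ld δ n < δ) ∧ ∀ y < δ, ∃ n, y < ld δ n)
    (X : Set ℕ) (c : ℕ → ℕ) (δ : ℕ → L) (hδ : ∀ i, Om (δ i))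
    (hX : ∀ i, PosP X (st f ld δ c i).1 (st f ld δ c i).2) :
    ∃ B ⊆ X, B.Infinite ∧ ∀ i, Lv f B (δ i) (st f ld δ c i).1 (st f ld δ c i).2 := by
  classical
  let k : ℕ → ℕ → ℕ := fun i => (st f ld δ c i).1
  have hk1 : ∀ i, (st f ld δ c i).2 = k (i + 1) := fun i => rfl
  have hk2 : ∀ i, k (i + 2) = nxt f ld (δ i) (k i) (k (i + 1)) := fun i => rfl
  have hpick : ∀ i, ∃ x ∈ X, i + 1 ≤ k (i + 1) x ∧ i + 1 ≤ k (i + 2) x := by
    intro i
    have h1 : {n | {m | ∃ x ∈ X, k (i + 1) x = m ∧ k (i + 2) x = n}.Infinite}.Infinite :=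
      hX (i + 1)
    obtain ⟨n, hn1, hn2⟩ := h1.exists_gt i
    obtain ⟨m, ⟨x, hx, hxm, hxn⟩, hm⟩ := Set.Infinite.exists_gt
      (s := {m | ∃ x ∈ X, k (i + 1) x = m ∧ k (i + 2) x = n}) hn1 i
    exact ⟨x, hx, by omega, by omega⟩
  choose y hyX hy1 hy2 using hpick
  -- all values are large
  have hbig0 : ∀ i d, d ≤ i + 1 → i + 1 ≤ k (i + 1 - d) (y i) ∧ 1 ≤ k (i + 2 - d) (y i) := by
    intro i d
    induction d with
    | zero => exact fun _ => ⟨hy1 i, le_trans (by omega) (hy2 i)⟩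
    | succ d ih =>
      intro hd
      obtain ⟨h1, h3⟩ := ih (by omega)
      obtain ⟨j, hj⟩ : ∃ j, i + 1 - (d + 1) = j := ⟨_, rfl⟩
      have hj1 : i + 1 - d = j + 1 := by omega
      have hj2 : i + 2 - d = j + 2 := by omega
      have hj3 : i + 2 - (d + 1) = j + 1 := by omega
      rw [hj, hj3]
      rw [hj1] at h1
      rw [hj2, hk2] at h3
      have h5 := (nxt_spec f ld h3).2 1 le_rfl h3
      exact ⟨h1.trans ((hn _ _).trans h5), le_trans (by omega) h1⟩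
  have hbig : ∀ i j, j ≤ i + 2 → i + 1 ≤ k j (y i) := by
    intro i j hj
    rcases Nat.lt_or_ge (i + 1) j with h | h
    · have : j = i + 2 := by omega
      rw [this]
      exact hy2 i
    · have h1 := (hbig0 i (i + 1 - j) (by omega)).1
      have h2 : i + 1 - (i + 1 - j) = j := by omega
      rwa [h2] at h1
  have hfin : ∀ (M : ℕ) (Q : ℕ → Prop), (∀ i, M ≤ i → ¬ Q (y i)) →
      {x | x ∈ range y ∧ Q x}.Finite := by
    intro M Q hQ
    refine ((Set.finite_Iio M).image y).subset ?_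
    rintro _ ⟨⟨i, rfl⟩, hi⟩
    refine ⟨i, ?_, rfl⟩
    by_contra hcon
    exact hQ i (not_lt.1 hcon) hi
  refine ⟨range y, ?_, ?_, ?_⟩
  · rintro _ ⟨i, rfl⟩
    exact hyX i
  · intro hB
    obtain ⟨M, hM⟩ := (hB.image (k 1)).bddAbove
    have h1 := hM ⟨y M, ⟨M, rfl⟩, rfl⟩
    have h2 := hbig M 1 (by omega)
    omega
  · intro j
    rw [hk1]
    refine ⟨fun N => hfin (max N j) _ ?_, hfin j _ ?_, ?_⟩
    · intro i hi hle
      have h1 := hbig i (j + 1) (by omega)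
      omega
    · intro i hi hle
      have h1 := hbig i (j + 2) (by omega)
      rw [hk2] at h1
      exact absurd (nxt_spec f ld (le_trans (by omega) h1)).1 (not_lt.2 hle)
    · intro b hb
      obtain ⟨hm, -, hc⟩ := hl (δ j) (hδ j)
      obtain ⟨s, hs⟩ := hc b hb
      have hs' : b ≤ ld (δ j) (s + 1) := hs.le.trans (hm (Nat.le_succ s))
      obtain ⟨N, hN⟩ := hf _ _ hs'
      refine hfin (max (max j (s + 1)) N) _ ?_
      intro i hi hlt
      have h1 := hbig i (j + 2) (by omega)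
      have h2 := hbig i (j + 1) (by omega)
      rw [hk2] at h1
      have h3 := (nxt_spec f ld (le_trans (by omega) h1)).2 (s + 1) (by omega) (by omega)
      have h4 := hN (k (j + 1) (y i)) (by omega)
      exact absurd (h4.trans h3) (not_le.2 hlt)

end

end Pool.Agent.LibBV24
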