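import Pool.Agent.LibBV24.Base
import Pool.Agent.LibBV24.Step

/-! [BV24] Every nonprincipal ultrafilter on a countable set is a `2^ω`-point (Balcar-Vojtáš). -/

set_option autoImplicit false

namespace Pool.Agent.LibBV24

open Cardinal Set Topology
open Pool.Agent.LibGP76

theorem bv_idx (p : Ultrafilter ℕ) (hp : ∀ X ∈ p, X.Infinite) :
    ∃ Cls : (ℕ → Bool) → Set ℕ → Prop, (∀ j B, Cls j B → B.Infinite) ∧
      (∀ i j, i ≠ j → ∀ B B', Cls i B → Cls j B' → (B ∩ B').Finite) ∧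
      ∀ X ∈ p, ∀ j, ∃ B, B ⊆ X ∧ Cls j B := by
  classical
  obtain ⟨T, W, c, hT1, hT2⟩ := base p hp
  obtain ⟨L, _, _, f, hL, -, hn, hf, hu⟩ := exists_scale
  obtain ⟨lb, hlb⟩ := labels hL
  have hex : ∀ δ : L, ∃ e : ℕ → L, Om δ → Monotone e ∧ (∀ n, e n < δ) ∧ ∀ y < δ, ∃ n, y < e n := by
    intro δ
    by_cases hδ : Om δ
    · obtain ⟨e, he⟩ := hδ
      exact ⟨e, fun _ => he⟩
    · exact ⟨fun _ => δ, fun h => absurd h hδ⟩
  choose ld hl using hex
  refine ⟨fun a B => B.Infinite ∧ ∃ τ : T, B ⊆ W τ ∧ ∃ δ : ℕ → L, (∀ i, lb (δ i) = a i) ∧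
    ∀ i, Lv f B (δ i) (st f ld δ (c τ) i).1 (st f ld δ (c τ) i).2, fun j B hB => hB.1, ?_, ?_⟩
  · rintro a a' hne B B' ⟨-, τ, hBW, δ, hδ, hlv⟩ ⟨-, τ', hBW', δ', hδ', hlv'⟩
    by_cases hτ : τ = τ'
    · subst hτ
      have hex : ∃ i, δ i ≠ δ' i := by
        by_contra hcon
        push Not at hcon
        apply hne
        funext i
        rw [← hδ, ← hδ', hcon i]
      have h1 := Nat.find_spec hex
      have h2 : ∀ j < Nat.find hex, δ j = δ' j := fun j hj => not_not.1 (Nat.find_min hex hj)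
      have h3 := st_congr f ld (c τ) (Nat.find hex) h2
      have h4 := hlv (Nat.find hex)
      have h5 := hlv' (Nat.find hex)
      rw [← h3] at h5
      exact lv_orth f h1 h4 h5
    · refine hT1 τ τ' hτ (B ∩ B') (fun x hx => hBW hx.1) (fun x hx => hBW' hx.2) ?_ ?_
      · intro N
        refine ((hlv 0).1 N).subset ?_
        rintro x ⟨hx, hxN⟩
        exact ⟨hx.1, hxN⟩
      · intro N
        refine ((hlv' 0).1 N).subset ?_
        rintro x ⟨hx, hxN⟩
        exact ⟨hx.2, hxN⟩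
  · intro X hX a
    obtain ⟨τ, hτ⟩ := hT2 X hX
    have hpos : PosP (X ∩ W τ) id (c τ) := by
      refine hτ.mono fun n hn => ?_
      refine Set.Infinite.mono ?_ hn
      rintro x ⟨hx, hxn⟩
      exact ⟨x, hx, rfl, hxn⟩
    obtain ⟨δ, hδ1, hδ2⟩ := levels f ld hL hf hu hl lb hlb _ _ hpos a
    obtain ⟨B, hBX, hBi, hBl⟩ := build f ld hn hf hl _ _ δ (fun i => (hδ1 i).2) hδ2
    exact ⟨B, fun x hx => (hBX hx).1, hBi, τ, fun x hx => (hBX hx).2, δ, fun i => (hδ1 i).1, hBl⟩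

/-- The countable case. -/
theorem main_countable {A : Type} (hA : #A = ℵ₀) (p : LibGP.UPt A) (F : Set (Set A)) :
    ∃ 𝒪 : Set (Set (LibGP.UPt A)), #𝒪 = #F ∧ 𝒪.PairwiseDisjoint id ∧
      (∀ O ∈ 𝒪, IsOpen O ∧ p ∈ frontier O) := by
  classical
  have hA' : #A = #ℕ := by rw [hA, mk_nat]
  obtain ⟨e⟩ := Cardinal.eq.1 hA'
  have hcard : ∀ S : Set A, #S = #A ↔ (e '' S).Infinite := by
    intro S
    rw [← Set.infinite_coe_iff, infinite_iff, mk_image_eq e.injective, hA]
    constructor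
    · exact fun h => h.ge
    · exact fun h => le_antisymm ((mk_set_le S).trans hA.le) h
  have hcard' : ∀ S : Set A, #S < #A ↔ (e '' S).Finite := by
    intro S
    rw [← not_iff_not, ← Set.Infinite, ← hcard, not_lt]
    exact ⟨fun h => le_antisymm (mk_set_le S) h, fun h => h.ge⟩
  obtain ⟨Cls, h1, h2, h3⟩ := bv_idx (p.1.map e) (by
    intro X hX
    have h4 := p.2 _ (Ultrafilter.mem_map.1 hX)
    rw [hcard, Set.image_preimage_eq _ e.surjective] at h4
    exact h4)
  have hJ : #(F × Bool) ≤ #(ℕ → Bool) := by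
    have h5 : #(Set A) = 𝔠 := by rw [mk_set, hA, two_power_aleph0]
    have h6 : #(ℕ → Bool) = 𝔠 := by
      rw [← Cardinal.power_def, mk_nat, mk_bool, two_power_aleph0]
    rw [h6, mk_prod, lift_id, lift_id, mk_bool]
    refine (mul_le_mul' ((mk_set_le F).trans h5.le) (le_refl 2)).trans ?_
    rw [mul_comm]
    exact (mul_eq_right aleph0_le_continuum
      ((Cardinal.natCast_lt_aleph0 (n := 2)).le.trans aleph0_le_continuum) two_ne_zero).le
  obtain ⟨⟨ι, hι⟩⟩ := (Cardinal.le_def _ _).1 hJ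
  refine LibGP.open_of_family (by rw [hA]) p (F := F) (K := Set ℕ)
    (fun B x => if Cls (ι x) B then e ⁻¹' B else ∅) ?_ ?_
  · intro B B' x x' hne
    by_cases hB : Cls (ι x) B
    · by_cases hB' : Cls (ι x') B'
      · rw [if_pos hB, if_pos hB', ← preimage_inter, hcard',
          Set.image_preimage_eq _ e.surjective]
        exact h2 _ _ (fun h => hne (hι h)) B B' hB hB'
      · rw [if_neg hB', inter_empty, mk_eq_zero, hA]
        exact aleph0_pos
    · rw [if_neg hB, empty_inter, mk_eq_zero, hA]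
      exact aleph0_pos
  · intro s hs x
    have hs' : e '' s ∈ p.1.map e := by
      rw [Ultrafilter.mem_map, preimage_image_eq _ e.injective]
      exact hs
    obtain ⟨B, hB1, hB2⟩ := h3 _ hs' (ι x)
    refine ⟨B, ?_⟩
    rw [if_pos hB2, inter_eq_left.2, hcard, Set.image_preimage_eq _ e.surjective]
    · exact h1 _ _ hB2
    · intro y hy
      obtain ⟨z, hz, hzy⟩ := hB1 hy
      rwa [← e.injective hzy]

end Pool.Agent.LibBV24
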