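import Pool.Agent.LibBV24.Tower

/-! [BV24] An unbounded well-ordered sequence of monotone functions, and labels. -/

set_option autoImplicit false

namespace Pool.Agent.LibBV24

open Cardinal Set
open Pool.Agent.LibGP76

/-- Points of countable cofinality. -/
def Om {K : Type} [LinearOrder K] (δ : K) : Prop :=
  ∃ e : ℕ → K, Monotone e ∧ (∀ n, e n < δ) ∧ ∀ y < δ, ∃ n, y < e n

theorem om_iff {K : Type} [LinearOrder K] (δ : K) :
    Om δ ↔ ∃ e : ℕ → K, (∀ n, e n < δ) ∧ ∀ y < δ, ∃ n, y < e n := by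
  constructor
  · rintro ⟨e, -, h1, h2⟩
    exact ⟨e, h1, h2⟩
  · rintro ⟨e, h1, h2⟩
    refine ⟨fun n => (Finset.range (n + 1)).sup' ⟨0, by simp⟩ e, ?_, ?_, ?_⟩
    · intro i j hij
      refine Finset.sup'_mono e ?_ _
      intro x hx
      rw [Finset.mem_range] at hx ⊢
      omega
    · intro n
      rw [Finset.sup'_lt_iff]
      exact fun i _ => h1 i
    · intro y hy
      obtain ⟨n, hn⟩ := h2 y hy
      exact ⟨n, hn.trans_le (Finset.le_sup' e (by simp))⟩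

theorem labels {L : Type} [LinearOrder L] [WellFoundedLT L] (h : RegK L) :
    ∃ lb : L → Bool, ∀ a, Stat {x | lb x = a ∧ Om x} := by
  classical
  have := nonempty_of_regK h
  have hS : Stat {x : L | Om x} := (stat_om h).mono fun x hx => (om_iff x).2 hx
  have hP : Posit (fun T : Set L => Stat {x | x ∈ T ∧ Om x}) := by
    refine ⟨?_, ?_, ?_, ?_⟩
    · intro A hA
      obtain ⟨x, hx⟩ := hA.nonempty
      exact ⟨x, hx.1⟩
    · intro A B hAB hA
      exact hA.mono fun x hx => ⟨hAB hx.1, hx.2⟩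
    · intro A η hA
      refine (hA.tail η).mono ?_
      rintro x ⟨⟨hx1, hx2⟩, hx3⟩
      exact ⟨⟨hx1, hx3⟩, hx2⟩
    · intro A f hA hf
      obtain ⟨ζ, hζ⟩ := fodor h hA f (fun x hx => hf x hx.1)
      refine ⟨ζ, hζ.mono ?_⟩
      rintro x ⟨⟨hx1, hx2⟩, hx3⟩
      exact ⟨⟨hx1, hx3⟩, hx2⟩
  have hex : ∀ x : L, ∃ e : ℕ → L, Om x → (∀ n, e n < x) ∧ ∀ y < x, ∃ n, y < e n := by
    intro x
    by_cases hx : Om x
    · obtain ⟨e, -, he⟩ := hx
      exact ⟨e, fun _ => he⟩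
    · exact ⟨fun _ => x, fun h => absurd h hx⟩
  choose e he using hex
  obtain ⟨col, hcol⟩ := ladder_split h hP (S := {x : L | Om x}) (hS.mono fun x hx => ⟨hx, hx⟩)
    (ι := ℕ) (by rw [mk_nat]; exact h.unc) (fun n x => e x n) (fun x hx n => (he x hx).1 n)
    (fun x hx y hy => (he x hx).2 y hy)
  obtain ⟨a₀⟩ := nonempty_of_regK h
  obtain ⟨a₁, ha₁⟩ := exists_gt' h a₀
  refine ⟨fun x => decide (col x = a₀), fun a => ?_⟩
  cases a with
  | true => exact (hcol a₀).mono fun x hx => ⟨decide_eq_true hx.1, hx.2⟩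
  | false =>
    refine (hcol a₁).mono fun x hx => ⟨decide_eq_false ?_, hx.2⟩
    intro h0
    have h1 : col x = a₁ := hx.1
    rw [h0] at h1
    exact ha₁.ne h1

/-- The scale. -/
theorem exists_scale : ∃ (L : Type) (_ : LinearOrder L) (_ : WellFoundedLT L) (f : L → ℕ → ℕ),
    RegK L ∧ (∀ b, Monotone (f b)) ∧ (∀ b n, n ≤ f b n) ∧
    (∀ a b, a ≤ b → ∃ N, ∀ n, N ≤ n → f a n ≤ f b n) ∧
    (∀ S : Set ℕ, S.Infinite → ∀ g : ℕ → ℕ, ∃ b, {n | n ∈ S ∧ g n < f b n}.Infinite) := by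
  classical
  let P := {f : ℕ → ℕ // Monotone f ∧ ∀ n, n ≤ f n}
  let r : P → P → Prop := fun f g => ∃ N, ∀ n, N ≤ n → f.1 n ≤ g.1 n
  obtain ⟨K, _, _, x, h1, h2, h3, h4, h5⟩ := exists_tower r (fun f => ⟨0, fun n _ => le_rfl⟩)
    (by
      rintro f g k ⟨N, hN⟩ ⟨M, hM⟩
      exact ⟨max N M, fun n hn => (hN n (le_of_max_le_left hn)).trans
        (hM n (le_of_max_le_right hn))⟩)
    (by
      intro f g
      refine ⟨⟨fun n => max (f.1 n) (g.1 n), fun i j hij => max_le_max (f.2.1 hij) (g.2.1 hij),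
        fun n => (f.2.2 n).trans (le_max_left _ _)⟩, ⟨0, fun n _ => le_max_left _ _⟩,
        ⟨0, fun n _ => le_max_right _ _⟩⟩)
    (by
      intro g
      refine ⟨⟨fun n => g.1 n + 1, fun i j hij => Nat.add_le_add_right (g.2.1 hij) 1,
        fun n => (g.2.2 n).trans (Nat.le_succ _)⟩, ?_⟩
      rintro ⟨N, hN⟩
      have := hN N le_rfl
      simp at this)
    ⟨⟨id, monotone_id, fun n => le_rfl⟩⟩
  have hunc : ℵ₀ < #K := by
    refine lt_of_le_of_ne h3 ?_
    intro h0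
    rw [← mk_nat] at h0
    obtain ⟨e⟩ := Cardinal.eq.1 h0
    obtain ⟨a, ha⟩ := h2 ⟨fun n => ∑ i ∈ Finset.range (n + 1), (x (e i)).1 n, by
      intro i j hij
      show ∑ k ∈ Finset.range (i + 1), (x (e k)).1 i ≤ ∑ k ∈ Finset.range (j + 1), (x (e k)).1 j
      refine (Finset.sum_le_sum fun k _ => (x (e k)).2.1 hij).trans ?_
      exact Finset.sum_le_sum_of_subset (Finset.range_mono (by omega)), by
      intro n
      refine ((x (e 0)).2.2 n).trans ?_
      exact Finset.single_le_sum (f := fun i => (x (e i)).1 n) (fun i _ => Nat.zero_le _)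
        (Finset.mem_range.2 (Nat.succ_pos n))⟩
    apply ha
    refine ⟨e.symm a, fun n hn => ?_⟩
    have := Finset.single_le_sum (f := fun i => (x (e i)).1 n) (fun i _ => Nat.zero_le _)
      (Finset.mem_range.2 (Nat.lt_succ_of_le hn))
    simpa using this
  refine ⟨K, inferInstance, inferInstance, fun b => (x b).1, ⟨hunc, h4, h5⟩, fun b => (x b).2.1,
    fun b => (x b).2.2, fun a b hab => h1 a b hab, ?_⟩
  intro S hS g
  have hnx : ∀ n, ∃ m, m ∈ S ∧ n ≤ m := fun n => by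
    obtain ⟨m, hm, hnm⟩ := hS.exists_gt n
    exact ⟨m, hm, hnm.le⟩
  let nx : ℕ → ℕ := fun n => Nat.find (hnx n)
  have nx1 : ∀ n, nx n ∈ S ∧ n ≤ nx n := fun n => Nat.find_spec (hnx n)
  have nx2 : Monotone nx := fun i j hij =>
    Nat.find_min' (hnx i) ⟨(nx1 j).1, hij.trans (nx1 j).2⟩
  obtain ⟨b, hb⟩ := h2 ⟨fun n => n + ∑ m ∈ Finset.range (nx n + 1), g m, by
    intro i j hij
    refine add_le_add hij ?_
    exact Finset.sum_le_sum_of_subset (Finset.range_mono (Nat.add_le_add_right (nx2 hij) 1)),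
    fun n => Nat.le_add_right _ _⟩
  refine ⟨b, ?_⟩
  rw [Set.infinite_iff_exists_gt]
  intro N
  have h6 : ∃ n, N + 1 ≤ n ∧ n + ∑ m ∈ Finset.range (nx n + 1), g m < (x b).1 n := by
    by_contra hcon
    push Not at hcon
    exact hb ⟨N + 1, hcon⟩
  obtain ⟨n, hn1, hn2⟩ := h6
  refine ⟨nx n, ⟨(nx1 n).1, ?_⟩, lt_of_lt_of_le (by omega) (nx1 n).2⟩
  have h7 : g (nx n) ≤ ∑ m ∈ Finset.range (nx n + 1), g m :=
    Finset.single_le_sum (f := g) (fun i _ => Nat.zero_le _) (Finset.mem_range.2 (Nat.lt_succ_self _))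
  have h8 := (x b).2.1 (nx1 n).2
  show g (nx n) < (x b).1 (nx n)
  omega

end Pool.Agent.LibBV24
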