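import Pool.Agent.LibGP76.Ladder
import Pool.Agent.LibGP.Top

/-! [BV24] Towers: an unbounded well-ordered sequence of regular length in a directed relation. -/

set_option autoImplicit false

namespace Pool.Agent.LibBV24

open Cardinal Set
open Pool.Agent.LibGP76

/-- Finite sets are bounded in a directed relation. -/
theorem fin_bdd {P : Type} (r : P → P → Prop)
    (ht : ∀ x y z, r x y → r y z → r x z) (hd : ∀ x y, ∃ z, r x z ∧ r y z)
    (hne : Nonempty P) (S : Set P) (hS : S.Finite) : ∃ y, ∀ x ∈ S, r x y := by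
  induction S, hS using Set.Finite.induction_on with
  | empty => exact ⟨hne.some, fun x hx => absurd hx (notMem_empty x)⟩
  | insert _ _ ih =>
    rename_i a s _ _
    obtain ⟨y, hy⟩ := ih
    obtain ⟨z, hz1, hz2⟩ := hd a y
    refine ⟨z, fun x hx => ?_⟩
    rcases mem_insert_iff.1 hx with rfl | hx
    · exact hz1
    · exact ht _ _ _ (hy x hx) hz2

theorem exists_tower {P : Type} (r : P → P → Prop) (hr : ∀ x, r x x)
    (ht : ∀ x y z, r x y → r y z → r x z) (hd : ∀ x y, ∃ z, r x z ∧ r y z)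
    (hu : ∀ y, ∃ x, ¬ r x y) (hne : Nonempty P) :
    ∃ (K : Type) (_ : LinearOrder K) (_ : WellFoundedLT K) (x : K → P),
      (∀ a b, a ≤ b → r (x a) (x b)) ∧ (∀ y, ∃ a, ¬ r (x a) y) ∧ ℵ₀ ≤ #K ∧
      (∀ c : K, #(Set.Iio c) < #K) ∧ (∀ S : Set K, #S < #K → ∃ c, ∀ s ∈ S, s < c) := by
  classical
  set 𝒮 : Set Cardinal.{0} := {c | ∃ S : Set P, #S = c ∧ ∀ y, ∃ x ∈ S, ¬ r x y} with h𝒮
  have h𝒮ne : 𝒮.Nonempty := ⟨_, univ, rfl, fun y => by
    obtain ⟨x, hx⟩ := hu y
    exact ⟨x, mem_univ _, hx⟩⟩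
  set lam := sInf 𝒮 with hlam
  obtain ⟨S, hS1, hS2⟩ : lam ∈ 𝒮 := csInf_mem h𝒮ne
  have hsm : ∀ T : Set P, #T < lam → ∃ y, ∀ x ∈ T, r x y := by
    intro T hT
    by_contra hcon
    push Not at hcon
    have hmem : (#T : Cardinal.{0}) ∈ 𝒮 := ⟨T, rfl, hcon⟩
    exact absurd (csInf_le' hmem) (not_le.2 hT)
  have hinf : ℵ₀ ≤ lam := by
    by_contra hcon
    rw [not_le, ← hS1, Cardinal.lt_aleph0_iff_set_finite] at hcon
    obtain ⟨y, hy⟩ := fin_bdd r ht hd hne S hcon
    obtain ⟨x, hx, hxy⟩ := hS2 y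
    exact hxy (hy x hx)
  have hK : Cardinal.mk lam.ord.ToType = lam := mk_ord_toType lam
  obtain ⟨e⟩ : Nonempty (lam.ord.ToType ≃ S) := Cardinal.eq.1 (hK.trans hS1.symm)
  have hIio : ∀ c : lam.ord.ToType, #(Set.Iio c) < lam := fun c => mk_Iio_toType_ord_lt c
  have hIic : ∀ c : lam.ord.ToType, #(Set.Iic c) < lam := by
    intro c
    have h1 : (Set.Iic c : Set lam.ord.ToType) ⊆ Set.Iio c ∪ {c} := by
      intro y hy
      rcases lt_or_eq_of_le (show y ≤ c from hy) with h | h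
      · exact Or.inl h
      · exact Or.inr h
    refine ((mk_le_mk_of_subset h1).trans (mk_union_le _ _)).trans_lt (add_lt_of_lt hinf (hIio c) ?_)
    rw [mk_singleton]
    exact one_lt_aleph0.trans_le hinf
  let ub : Set P → P := fun T => if h : #T < lam then (hsm T h).choose else hne.some
  have hub : ∀ T : Set P, #T < lam → ∀ x ∈ T, r x (ub T) := by
    intro T hT x hx
    have : ub T = (hsm T hT).choose := dif_pos hT
    rw [this]
    exact (hsm T hT).choose_spec x hx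
  let G : ∀ b : lam.ord.ToType, (∀ c, c < b → P) → Set P := fun b rec =>
    (range fun c : Set.Iio b => rec c.1 c.2) ∪ (fun c : lam.ord.ToType => (e c : P)) '' Set.Iic b
  let x : lam.ord.ToType → P := wellFounded_lt.fix (fun b rec => ub (G b rec))
  have hx : ∀ b, x b = ub (G b fun c _ => x c) := fun b => wellFounded_lt.fix_eq _ b
  have hG : ∀ b, #(G b fun c _ => x c) < lam := by
    intro b
    refine (mk_union_le _ _).trans_lt (add_lt_of_lt hinf ?_ ?_)
    · exact mk_range_le.trans_lt (hIio b)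
    · exact mk_image_le.trans_lt (hIic b)
  have h1 : ∀ a b, a < b → r (x a) (x b) := by
    intro a b hab
    rw [hx b]
    exact hub _ (hG b) _ (Or.inl ⟨⟨a, hab⟩, rfl⟩)
  have h2 : ∀ b, r (e b : P) (x b) := by
    intro b
    rw [hx b]
    exact hub _ (hG b) _ (Or.inr ⟨b, mem_Iic.2 le_rfl, rfl⟩)
  have h3 : ∀ a b, a ≤ b → r (x a) (x b) := by
    intro a b hab
    rcases lt_or_eq_of_le hab with h | h
    · exact h1 a b h
    · rw [h]; exact hr _
  have h4 : ∀ y, ∃ a, ¬ r (x a) y := by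
    intro y
    by_contra hcon
    push Not at hcon
    obtain ⟨s, hs, hsy⟩ := hS2 y
    apply hsy
    have h5 := ht _ _ _ (h2 (e.symm ⟨s, hs⟩)) (hcon (e.symm ⟨s, hs⟩))
    rwa [Equiv.apply_symm_apply] at h5
  refine ⟨lam.ord.ToType, inferInstance, inferInstance, x, h3, h4, hinf.trans_eq hK.symm, ?_, ?_⟩
  · intro c
    rw [hK]
    exact hIio c
  · intro T hT
    rw [hK] at hT
    obtain ⟨y, hy⟩ := hsm (x '' T) (mk_image_le.trans_lt hT)
    obtain ⟨a, ha⟩ := h4 y
    refine ⟨a, fun s hs => ?_⟩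
    by_contra hcon
    rw [not_lt] at hcon
    exact ha (ht _ _ _ (h3 _ _ hcon) (hy _ ⟨s, hs, rfl⟩))

end Pool.Agent.LibBV24
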